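import Mathlib

set_option autoImplicit false

open Set Filter Topology TopologicalSpace Cardinal

namespace Pool.Agent.Results.MP_4cc686_gt.OpenImage

/-- `Cp X` is the set of continuous real functions on `X` with the topology of pointwise
convergence (the subspace topology inherited from the product `X → ℝ`). -/
abbrev Cp (X : Type) [TopologicalSpace X] : Type := {f : X → ℝ // Continuous f}

/-- The density of `Z`: the least cardinality of a dense subset. -/
noncomputable def dens (Z : Type) [TopologicalSpace Z] : Cardinal.{0} :=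
  sInf {κ : Cardinal.{0} | ∃ D : Set Z, Dense D ∧ Cardinal.mk D = κ}

/-- The hereditary density of `X`: the supremum of the densities of all subspaces, and at
least `ℵ₀`. -/
noncomputable def hd (X : Type) [TopologicalSpace X] : Cardinal.{0} :=
  max (⨆ A : Set X, dens A) ℵ₀

/-! ### The double arrow space, realised as the space of up-sets of the real line -/

/-- All up-sets of `ℝ` (given by their indicator functions), a closed subspace of `Bool ^ ℝ`. -/
abbrev DA : Type := {s : ℝ → Bool // Monotone s}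

instance : CompactSpace DA := by
  have hcl : IsClosed {s : ℝ → Bool | Monotone s} := by
    have : {s : ℝ → Bool | Monotone s} = ⋂ x : ℝ, ⋂ y : ℝ, ⋂ _ : x ≤ y, {s | s x ≤ s y} := by
      ext s
      simp [Monotone]
    rw [this]
    refine isClosed_iInter fun x => isClosed_iInter fun y => isClosed_iInter fun _ => ?_
    have hc : Continuous fun s : ℝ → Bool => (s x, s y) :=
      (continuous_apply x).prodMk (continuous_apply y)
    exact (isClosed_discrete {p : Bool × Bool | p.1 ≤ p.2}).preimage hc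
  exact isCompact_iff_compactSpace.mp hcl.isCompact

/-- The up-set `[x, ∞)`. -/
noncomputable def up (x : ℝ) : DA :=
  ⟨fun y => decide (x ≤ y), fun a b hab => by
    by_cases h : x ≤ a
    · have h' : x ≤ b := h.trans hab
      simp [h, h']
    · simp [h]⟩

/-- The up-set `(x, ∞)`. -/
noncomputable def us (x : ℝ) : DA :=
  ⟨fun y => decide (x < y), fun a b hab => by
    by_cases h : x < a
    · have h' : x < b := h.trans_le hab
      simp [h, h']
    · simp [h]⟩

/-- The empty up-set. -/
def bot : DA := ⟨fun _ => false, fun _ _ _ => le_rfl⟩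

lemma up_apply (x y : ℝ) : (up x).1 y = decide (x ≤ y) := rfl
lemma us_apply (x y : ℝ) : (us x).1 y = decide (x < y) := rfl

lemma mono_true {s : DA} {x y : ℝ} (hxy : x ≤ y) (h : s.1 x = true) : s.1 y = true := by
  have := s.2 hxy
  rw [h] at this
  exact top_le_iff.mp this

lemma mono_false {s : DA} {x y : ℝ} (hxy : x ≤ y) (h : s.1 y = false) : s.1 x = false := by
  by_contra h'
  rw [Bool.not_eq_false] at h'
  rw [mono_true hxy h'] at h
  exact absurd h (by decide)

/-- Basic neighbourhoods in `DA`. -/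
lemma exists_finset_of_isOpen {U : Set DA} (hU : IsOpen U) {s : DA} (hs : s ∈ U) :
    ∃ G : Finset ℝ, ∀ t : DA, (∀ g ∈ G, t.1 g = s.1 g) → t ∈ U := by
  obtain ⟨V, hV, rfl⟩ := isOpen_induced_iff.mp hU
  obtain ⟨I, u, hu, hsub⟩ := isOpen_pi_iff.mp hV s.1 hs
  refine ⟨I, fun t ht => hsub ?_⟩
  intro g hg
  rw [ht g hg]
  exact (hu g hg).2

lemma isOpen_agree (G : Finset ℝ) (s : DA) : IsOpen {t : DA | ∀ g ∈ G, t.1 g = s.1 g} := by
  have : {t : DA | ∀ g ∈ G, t.1 g = s.1 g} = ⋂ g ∈ G, {t : DA | t.1 g = s.1 g} := by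
    ext t
    simp
  rw [this]
  refine isOpen_biInter_finset fun g _ => ?_
  have h1 : Continuous fun t : DA => t.1 g := (continuous_apply g).comp continuous_subtype_val
  exact (isOpen_discrete {s.1 g}).preimage h1

/-- A continuous function on `DA` has only finitely many jumps of size at least `ε`. -/
lemma finite_jumps (f : Cp DA) {ε : ℝ} (hε : 0 < ε) :
    {x : ℝ | ε ≤ |f.1 (up x) - f.1 (us x)|}.Finite := by
  have h1 : ∀ s : DA, ∃ G : Finset ℝ, ∀ t : DA, (∀ g ∈ G, t.1 g = s.1 g) →
      |f.1 t - f.1 s| < ε / 2 := by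
    intro s
    have hU : IsOpen {t : DA | |f.1 t - f.1 s| < ε / 2} :=
      isOpen_lt ((f.2.sub continuous_const).abs) continuous_const
    exact exists_finset_of_isOpen hU (by simpa using half_pos hε)
  choose G hG using h1
  obtain ⟨T, hT⟩ := isCompact_univ.elim_finite_subcover
    (fun s : DA => {t : DA | ∀ g ∈ G s, t.1 g = s.1 g}) (fun s => isOpen_agree (G s) s)
    (fun s _ => mem_iUnion.mpr ⟨s, fun g _ => rfl⟩)
  refine (T.biUnion G).finite_toSet.subset ?_
  intro x hx
  by_contra hxT
  obtain ⟨s, hsT, hs⟩ : ∃ s ∈ T, ∀ g ∈ G s, (up x).1 g = s.1 g := by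
    simpa using hT (mem_univ (up x))
  have hxG : x ∉ G s := fun h => hxT (by
    simp only [Finset.coe_biUnion, mem_iUnion]
    exact ⟨s, hsT, h⟩)
  have hs' : ∀ g ∈ G s, (us x).1 g = s.1 g := by
    intro g hg
    rw [← hs g hg, up_apply, us_apply]
    have : x ≠ g := fun h => hxG (h ▸ hg)
    simp [lt_iff_le_and_ne, this]
  have h2 := hG s (up x) hs
  have h3 := hG s (us x) hs'
  have h4 : |f.1 (up x) - f.1 (us x)| < ε := by
    calc |f.1 (up x) - f.1 (us x)| = |(f.1 (up x) - f.1 s) - (f.1 (us x) - f.1 s)| := by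
          congr 1; ring
      _ ≤ |f.1 (up x) - f.1 s| + |f.1 (us x) - f.1 s| := abs_sub _ _
      _ < ε / 2 + ε / 2 := add_lt_add h2 h3
      _ = ε := by ring
  exact absurd hx (not_le.mpr h4)

/-! ### The discrete space of irrational numbers and its one-point compactification -/

/-- The set of irrational numbers, with the discrete topology. -/
def J : Type := {x : ℝ // Irrational x}

instance : TopologicalSpace J := ⊥
instance : DiscreteTopology J := ⟨rfl⟩

/-- the underlying real number -/
def J.val (x : J) : ℝ := Subtype.val x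

lemma J.irr (x : J) : Irrational x.val := Subtype.property x

lemma J.val_injective : Function.Injective J.val := fun _ _ h => Subtype.ext h

/-- The dual map: `T f (x) = f [x,∞) - f (x,∞) + f ∅`, `T f (∞) = f ∅`. -/
noncomputable def T (f : Cp DA) : Cp (OnePoint J) :=
  ⟨fun y => OnePoint.elim y (f.1 bot) (fun x : J => f.1 (up x.val) - f.1 (us x.val) + f.1 bot), by
    rw [OnePoint.continuous_iff_from_discrete]
    simp only [OnePoint.elim_some, OnePoint.elim_infty]
    rw [Metric.tendsto_nhds]
    intro ε hε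
    have h := (finite_jumps f hε).preimage (f := J.val) (J.val_injective.injOn)
    rw [Filter.eventually_iff_exists_mem]
    refine ⟨(J.val ⁻¹' {x : ℝ | ε ≤ |f.1 (up x) - f.1 (us x)|})ᶜ, h.compl_mem_cofinite, ?_⟩
    intro x hx
    rw [Real.dist_eq]
    have : ¬ (ε ≤ |f.1 (up x.val) - f.1 (us x.val)|) := hx
    rw [add_sub_cancel_right]
    exact not_le.mp this⟩

lemma T_some (f : Cp DA) (x : J) :
    (T f).1 (x : OnePoint J) = f.1 (up x.val) - f.1 (us x.val) + f.1 bot := rfl

lemma T_infty (f : Cp DA) : (T f).1 OnePoint.infty = f.1 bot := rfl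

lemma continuous_T : Continuous T := by
  refine Continuous.subtype_mk ?_ _
  refine continuous_pi fun y => ?_
  have hev : ∀ s : DA, Continuous fun f : Cp DA => f.1 s := fun s =>
    (continuous_apply s).comp continuous_subtype_val
  induction y using OnePoint.rec with
  | infty => exact hev bot
  | coe x => exact ((hev (up x.val)).sub (hev (us x.val))).add (hev bot)

/-! ### Surjectivity -/

open Classical in
/-- A finite step function with prescribed jumps at the points of a finite set. -/
lemma exists_step (F : Finset J) (h : J → ℝ) (M : ℝ) (hM : ∀ x ∈ F, |h x| ≤ M) (hM0 : 0 ≤ M) :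
    ∃ g : Cp DA, (∀ s, |g.1 s| ≤ M) ∧
      (∀ y : J, g.1 (up y.val) - g.1 (us y.val) = if y ∈ F then h y else 0) := by
  have hq : ∀ x : J, ∃ q : ℚ, (q : ℝ) < x.val ∧ ∀ y ∈ F, y.val < x.val → y.val < q := by
    intro x
    obtain ⟨m, hm1, hm2⟩ : ∃ m : ℝ, m < x.val ∧ ∀ y ∈ F, y.val < x.val → y.val ≤ m := by
      rcases (F.filter (fun y => y.val < x.val)).eq_empty_or_nonempty with h0 | h0
      · refine ⟨x.val - 1, by linarith, fun y hy hyx => ?_⟩
        have : y ∈ F.filter (fun y => y.val < x.val) := Finset.mem_filter.mpr ⟨hy, hyx⟩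
        rw [h0] at this
        exact absurd this (Finset.notMem_empty _)
      · obtain ⟨z, hz, hz'⟩ := Finset.exists_max_image _ (fun y : J => y.val) h0
        refine ⟨z.val, (Finset.mem_filter.mp hz).2, fun y hy hyx => ?_⟩
        exact hz' y (Finset.mem_filter.mpr ⟨hy, hyx⟩)
    obtain ⟨q, hq1, hq2⟩ := exists_rat_btwn hm1
    exact ⟨q, hq2, fun y hy hyx => (hm2 y hy hyx).trans_lt hq1⟩
  choose q hq1 hq2 using hq
  have hcont : ∀ x : J, Continuous fun s : DA =>
      if s.1 x.val = true ∧ s.1 (q x : ℝ) = false then h x else 0 := by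
    intro x
    have h1 : Continuous fun s : DA => (s.1 x.val, s.1 (q x : ℝ)) :=
      ((continuous_apply _).comp continuous_subtype_val).prodMk
        ((continuous_apply _).comp continuous_subtype_val)
    have h2 : Continuous fun p : Bool × Bool => if p.1 = true ∧ p.2 = false then h x else 0 :=
      continuous_of_discreteTopology
    exact h2.comp h1
  refine ⟨⟨fun s => ∑ x ∈ F, if s.1 x.val = true ∧ s.1 (q x : ℝ) = false then h x else 0,
    continuous_finsetSum _ fun x _ => hcont x⟩, ?_, ?_⟩
  · intro s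
    simp only
    rw [← Finset.sum_filter]
    have hcard : (F.filter (fun x : J => s.1 x.val = true ∧ s.1 (q x : ℝ) = false)).card ≤ 1 := by
      rw [Finset.card_le_one]
      intro x hx y hy
      rw [Finset.mem_filter] at hx hy
      obtain ⟨hxF, hx1, hx2⟩ := hx
      obtain ⟨hyF, hy1, hy2⟩ := hy
      rcases lt_trichotomy x.val y.val with hlt | heq | hgt
      · exfalso
        have h1 := hq2 y x hxF hlt
        have h2 := mono_true h1.le hx1
        rw [h2] at hy2
        exact absurd hy2 (by decide)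
      · exact J.val_injective heq
      · exfalso
        have h1 := hq2 x y hyF hgt
        have h2 := mono_true h1.le hy1
        rw [h2] at hx2
        exact absurd hx2 (by decide)
    calc |∑ x ∈ F.filter (fun x : J => s.1 x.val = true ∧ s.1 (q x : ℝ) = false), h x|
        ≤ ∑ x ∈ F.filter (fun x : J => s.1 x.val = true ∧ s.1 (q x : ℝ) = false), |h x| :=
          Finset.abs_sum_le_sum_abs _ _
      _ ≤ (F.filter (fun x : J => s.1 x.val = true ∧ s.1 (q x : ℝ) = false)).card • M :=
          Finset.sum_le_card_nsmul _ _ _ fun x hx => hM x (Finset.mem_filter.mp hx).1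
      _ ≤ 1 • M := by
          rw [nsmul_eq_mul, nsmul_eq_mul]
          exact mul_le_mul_of_nonneg_right (by exact_mod_cast hcard) hM0
      _ = M := one_nsmul M
  · intro y
    simp only
    rw [← Finset.sum_sub_distrib]
    have hterm : ∀ x ∈ F, ((if (up y.val).1 x.val = true ∧ (up y.val).1 (q x : ℝ) = false
        then h x else 0) - (if (us y.val).1 x.val = true ∧ (us y.val).1 (q x : ℝ) = false
        then h x else 0)) = if y = x then h x else 0 := by
      intro x _
      by_cases hyx : y = x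
      · subst hyx
        have h1 : ¬ (y.val ≤ (q y : ℝ)) := not_le.mpr (hq1 y)
        simp [up_apply, us_apply, h1]
      · have hne : y.val ≠ x.val := fun h => hyx (J.val_injective h)
        have hneq : y.val ≠ (q x : ℝ) := fun h => (J.irr y) ⟨q x, h.symm⟩
        have e1 : (us y.val).1 x.val = (up y.val).1 x.val := by
          simp [up_apply, us_apply, lt_iff_le_and_ne, hne]
        have e2 : (us y.val).1 (q x : ℝ) = (up y.val).1 (q x : ℝ) := by
          simp [up_apply, us_apply, lt_iff_le_and_ne, hneq]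
        rw [e1, e2, sub_self, if_neg hyx]
    rw [Finset.sum_congr rfl hterm]
    rw [Finset.sum_ite_eq]

/-- Every function in `c₀(J)` is the jump function of a continuous function on `DA`. -/
lemma exists_jump (h : J → ℝ) (hh : ∀ ε : ℝ, 0 < ε → {x : J | ε ≤ |h x|}.Finite) :
    ∃ f : Cp DA, ∀ y : J, f.1 (up y.val) - f.1 (us y.val) = h y := by
  classical
  -- `h` is bounded
  obtain ⟨C, hC0, hC⟩ : ∃ C : ℝ, 0 ≤ C ∧ ∀ y, |h y| ≤ C := by
    have hfin := hh 1 one_pos
    obtain ⟨C, hC⟩ := (hfin.image (fun x => |h x|)).bddAbove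
    refine ⟨max C 1, le_max_of_le_right zero_le_one, fun y => ?_⟩
    by_cases hy : 1 ≤ |h y|
    · exact (hC ⟨y, hy, rfl⟩).trans (le_max_left _ _)
    · exact (not_le.mp hy).le.trans (le_max_right _ _)
  let κ : J → ℕ := fun y => sInf {k : ℕ | (1 / 2 : ℝ) ^ k ≤ |h y|}
  have hne : ∀ y, h y ≠ 0 → {k : ℕ | (1 / 2 : ℝ) ^ k ≤ |h y|}.Nonempty := by
    intro y hy
    obtain ⟨k, hk⟩ := exists_pow_lt_of_lt_one (abs_pos.mpr hy) (by norm_num : (1 / 2 : ℝ) < 1)
    exact ⟨k, hk.le⟩
  have hF : ∀ k : ℕ, {y : J | h y ≠ 0 ∧ κ y = k}.Finite := by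
    intro k
    refine (hh ((1 / 2 : ℝ) ^ k) (by positivity)).subset ?_
    rintro y ⟨hy, rfl⟩
    exact Nat.sInf_mem (hne y hy)
  have hM : ∀ k : ℕ, ∀ y ∈ (hF k).toFinset, |h y| ≤ (C + 2) * (1 / 2 : ℝ) ^ k := by
    intro k y hy
    rw [Set.Finite.mem_toFinset] at hy
    obtain ⟨hy0, hyk⟩ := hy
    rcases Nat.eq_zero_or_pos k with rfl | hk
    · have := hC y
      simp only [pow_zero, mul_one]
      linarith
    · have hnot : (k - 1) ∉ {k : ℕ | (1 / 2 : ℝ) ^ k ≤ |h y|} :=
        Nat.notMem_of_lt_sInf (by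
          change k - 1 < κ y
          omega)
      have h1 : |h y| < (1 / 2 : ℝ) ^ (k - 1) := not_le.mp hnot
      have h2 : (1 / 2 : ℝ) ^ (k - 1) = 2 * (1 / 2 : ℝ) ^ k := by
        obtain ⟨m, rfl⟩ : ∃ m, k = m + 1 := ⟨k - 1, by omega⟩
        simp only [Nat.add_sub_cancel, pow_succ]
        ring
      have h3 : (0 : ℝ) < (1 / 2 : ℝ) ^ k := by positivity
      nlinarith
  have hM0 : ∀ k : ℕ, (0 : ℝ) ≤ (C + 2) * (1 / 2 : ℝ) ^ k := fun k => by positivity
  choose g hg1 hg2 using fun k => exists_step (hF k).toFinset h _ (hM k) (hM0 k)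
  have hsum : Summable fun k : ℕ => (C + 2) * (1 / 2 : ℝ) ^ k :=
    (summable_geometric_of_lt_one (by norm_num) (by norm_num)).mul_left _
  have hsum' : ∀ s : DA, Summable fun k => (g k).1 s := fun s =>
    Summable.of_norm_bounded hsum fun k => by
      rw [Real.norm_eq_abs]
      exact hg1 k s
  refine ⟨⟨fun s => ∑' k, (g k).1 s, continuous_tsum (fun k => (g k).2) hsum fun k s => by
    rw [Real.norm_eq_abs]
    exact hg1 k s⟩, fun y => ?_⟩
  simp only
  rw [← (hsum' _).tsum_sub (hsum' _)]
  simp only [hg2, Set.Finite.mem_toFinset, mem_ofPred_eq]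
  by_cases hy : h y = 0
  · simp [hy]
  · rw [tsum_eq_single (κ y)]
    · simp [hy]
    · intro k hk
      rw [if_neg]
      rintro ⟨_, h2⟩
      exact hk h2.symm

lemma surjective_T : Function.Surjective T := by
  intro g
  have hg := (OnePoint.continuous_iff_from_discrete g.1).mp g.2
  obtain ⟨f0, hf0⟩ := exists_jump (fun x : J => g.1 (x : OnePoint J) - g.1 OnePoint.infty) (by
    intro ε hε
    rw [Metric.tendsto_nhds] at hg
    have h1 := hg ε hε
    rw [Filter.eventually_cofinite] at h1
    refine h1.subset ?_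
    intro x hx
    rw [mem_ofPred_eq] at hx ⊢
    rw [Real.dist_eq]
    exact not_lt.mpr hx)
  refine ⟨⟨fun s => f0.1 s + (g.1 OnePoint.infty - f0.1 bot), f0.2.add continuous_const⟩, ?_⟩
  apply Subtype.ext
  funext y
  induction y using OnePoint.rec with
  | infty =>
    rw [T_infty]
    ring
  | coe x =>
    rw [T_some]
    have := hf0 x
    simp only at this ⊢
    linarith

/-! ### Openness -/

/-- Basic neighbourhoods in `Cp X`. -/
lemma Cp_nhds {X : Type} [TopologicalSpace X] {f : Cp X} {U : Set (Cp X)} (hU : U ∈ 𝓝 f) :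
    ∃ (G : Finset X) (ε : ℝ), 0 < ε ∧ ∀ g : Cp X, (∀ x ∈ G, |g.1 x - f.1 x| < ε) → g ∈ U := by
  obtain ⟨W, hWU, hW, hfW⟩ := mem_nhds_iff.mp hU
  obtain ⟨V, hV, rfl⟩ := isOpen_induced_iff.mp hW
  obtain ⟨I, u, hu, hsub⟩ := isOpen_pi_iff.mp hV f.1 hfW
  have h1 : ∀ i : X, ∃ ε : ℝ, 0 < ε ∧ (i ∈ I → ∀ r : ℝ, |r - f.1 i| < ε → r ∈ u i) := by
    intro i
    by_cases hi : i ∈ I
    · obtain ⟨ε, hε, hε'⟩ := Metric.isOpen_iff.mp (hu i hi).1 (f.1 i) (hu i hi).2
      exact ⟨ε, hε, fun _ r hr => hε' (by rwa [Metric.mem_ball, Real.dist_eq])⟩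
    · exact ⟨1, one_pos, fun h => absurd h hi⟩
  choose ε hε hε' using h1
  rcases I.eq_empty_or_nonempty with hI | hI
  · refine ⟨I, 1, one_pos, fun g _ => hWU (hsub ?_)⟩
    intro i hi
    rw [hI] at hi
    exact absurd hi (Finset.notMem_empty _)
  · obtain ⟨i0, hi0, hmin⟩ := Finset.exists_min_image I ε hI
    refine ⟨I, ε i0, hε i0, fun g hg => hWU (hsub ?_)⟩
    intro i hi
    exact hε' i hi _ ((hg i hi).trans_le (hmin i hi))

lemma Cp_nhds_mem {X : Type} [TopologicalSpace X] (f : Cp X) (G : Finset X) {ε : ℝ}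
    (hε : 0 < ε) : {g : Cp X | ∀ x ∈ G, |g.1 x - f.1 x| < ε} ∈ 𝓝 f := by
  have h1 : {g : Cp X | ∀ x ∈ G, |g.1 x - f.1 x| < ε} =
      ⋂ x ∈ G, {g : Cp X | |g.1 x - f.1 x| < ε} := by
    ext g
    simp
  have h2 : IsOpen {g : Cp X | ∀ x ∈ G, |g.1 x - f.1 x| < ε} := by
    rw [h1]
    refine isOpen_biInter_finset fun x _ => ?_
    have hev : Continuous fun g : Cp X => g.1 x := (continuous_apply x).comp continuous_subtype_val
    exact isOpen_lt ((hev.sub continuous_const).abs) continuous_const
  exact h2.mem_nhds fun x _ => by simpa using hε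

/-- Two up-sets with the same rational elements differ in at most one point `x`, which is
irrational, and then they are `[x, ∞)` and `(x, ∞)`. -/
lemma eq_of_rat {s t : DA} (h : ∀ q : ℚ, s.1 q = t.1 q) {x : ℝ} (hs : s.1 x = true)
    (ht : t.1 x = false) : Irrational x ∧ s = up x ∧ t = us x := by
  have hgt : ∀ y, x < y → s.1 y = true ∧ t.1 y = true := by
    intro y hy
    obtain ⟨q, hq1, hq2⟩ := exists_rat_btwn hy
    have h1 := mono_true hq1.le hs
    exact ⟨mono_true hq2.le h1, mono_true hq2.le (by rw [← h q]; exact h1)⟩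
  have hlt : ∀ y, y < x → s.1 y = false ∧ t.1 y = false := by
    intro y hy
    obtain ⟨q, hq1, hq2⟩ := exists_rat_btwn hy
    have h1 := mono_false hq2.le ht
    exact ⟨mono_false hq1.le (by rw [h q]; exact h1), mono_false hq1.le h1⟩
  refine ⟨?_, ?_, ?_⟩
  · rintro ⟨q, rfl⟩
    rw [h q, ht] at hs
    exact absurd hs (by decide)
  · apply Subtype.ext
    funext y
    rw [up_apply]
    rcases lt_trichotomy x y with hy | hy | hy
    · rw [(hgt y hy).1]
      simp [hy.le]
    · subst hy
      rw [hs]
      simp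
    · rw [(hlt y hy).1]
      simp [not_le.mpr hy]
  · apply Subtype.ext
    funext y
    rw [us_apply]
    rcases lt_trichotomy x y with hy | hy | hy
    · rw [(hgt y hy).2]
      simp [hy]
    · subst hy
      rw [ht]
      simp
    · rw [(hlt y hy).2]
      simp [hy.le]

/-- Small functions on `A(J)` have small preimages. -/
lemma small_lift (G : Finset DA) {ε : ℝ} (hε : 0 < ε) :
    ∃ H : Finset (OnePoint J), ∀ k : Cp (OnePoint J), (∀ y ∈ H, |k.1 y| < ε / 3) →
      ∃ u : Cp DA, T u = k ∧ ∀ s ∈ G, |u.1 s| < ε := by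
  classical
  -- the irrational points whose two halves matter
  let G' : Finset DA := insert bot G
  have h1 : ∀ s t : DA, ∃ (q : ℚ) (y : OnePoint J), (s.1 q = t.1 q →
      (∀ q : ℚ, s.1 q = t.1 q)) ∧ ((∀ q : ℚ, s.1 q = t.1 q) → s ≠ t →
        ∃ x : J, y = x ∧ ((s = up x.val ∧ t = us x.val) ∨ (s = us x.val ∧ t = up x.val))) := by
    intro s t
    by_cases hst : ∀ q : ℚ, s.1 q = t.1 q
    · by_cases hne : s = t
      · exact ⟨0, OnePoint.infty, fun _ => hst, fun _ h => absurd hne h⟩
      · have : ∃ x : ℝ, s.1 x ≠ t.1 x := by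
          by_contra hcon
          push Not at hcon
          exact hne (Subtype.ext (funext hcon))
        obtain ⟨x, hx⟩ := this
        cases hsx : s.1 x with
        | true =>
          have htx : t.1 x = false := by
            cases htx : t.1 x with
            | true => rw [hsx, htx] at hx; exact absurd rfl hx
            | false => rfl
          obtain ⟨hirr, e1, e2⟩ := eq_of_rat hst hsx htx
          let x' : J := ⟨x, hirr⟩
          exact ⟨0, (x' : OnePoint J), fun _ => hst, fun _ _ => ⟨x', rfl, Or.inl ⟨e1, e2⟩⟩⟩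
        | false =>
          have htx : t.1 x = true := by
            cases htx : t.1 x with
            | true => rfl
            | false => rw [hsx, htx] at hx; exact absurd rfl hx
          obtain ⟨hirr, e1, e2⟩ := eq_of_rat (fun q => (hst q).symm) htx hsx
          let x' : J := ⟨x, hirr⟩
          exact ⟨0, (x' : OnePoint J), fun _ => hst, fun _ _ => ⟨x', rfl, Or.inr ⟨e2, e1⟩⟩⟩
    · have hst' := hst
      push Not at hst'
      obtain ⟨q, hq⟩ := hst'
      exact ⟨q, OnePoint.infty, fun h => absurd h hq, fun h => absurd h hst⟩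
  choose qq yy hqq hyy using h1
  let Q0 : Finset ℚ := (G' ×ˢ G').image fun p => qq p.1 p.2
  let H : Finset (OnePoint J) := insert OnePoint.infty ((G' ×ˢ G').image fun p => yy p.1 p.2)
  refine ⟨H, fun k hk => ?_⟩
  obtain ⟨u0, hu0⟩ := surjective_T k
  have hinf : |u0.1 bot| < ε / 3 := by
    have := hk OnePoint.infty (Finset.mem_insert_self _ _)
    rwa [← hu0, T_infty] at this
  -- points of `G'` with the same pattern on `Q0` have close values
  have hclose : ∀ s ∈ G', ∀ t ∈ G', (∀ q ∈ Q0, s.1 (q : ℝ) = t.1 (q : ℝ)) →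
      |u0.1 s - u0.1 t| < 2 * (ε / 3) := by
    intro s hs t ht hst
    by_cases hne : s = t
    · rw [hne, sub_self, abs_zero]
      linarith
    have hp : (s, t) ∈ G' ×ˢ G' := Finset.mem_product.mpr ⟨hs, ht⟩
    have hq : s.1 (qq s t : ℝ) = t.1 (qq s t : ℝ) :=
      hst _ (Finset.mem_image.mpr ⟨(s, t), hp, rfl⟩)
    obtain ⟨x, hx, hor⟩ := hyy s t (hqq s t hq) hne
    have hxH : |k.1 (x : OnePoint J)| < ε / 3 :=
      hk _ (Finset.mem_insert_of_mem (Finset.mem_image.mpr ⟨(s, t), hp, hx⟩))
    rw [← hu0, T_some] at hxH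
    rw [abs_lt] at hxH hinf ⊢
    rcases hor with ⟨rfl, rfl⟩ | ⟨rfl, rfl⟩
    · constructor <;> linarith [hxH.1, hxH.2, hinf.1, hinf.2]
    · constructor <;> linarith [hxH.1, hxH.2, hinf.1, hinf.2]
  -- the correction
  let pat : DA → (Q0 → Bool) := fun s q => s.1 (q.1 : ℝ)
  have hpat : Continuous pat := continuous_pi fun q =>
    (continuous_apply _).comp continuous_subtype_val
  let c : (Q0 → Bool) → ℝ := fun p => if h : ∃ s ∈ G', pat s = p then u0.1 h.choose else 0
  have hc : ∀ s ∈ G', |u0.1 s - c (pat s)| < 2 * (ε / 3) := by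
    intro s hs
    have hex : ∃ s' ∈ G', pat s' = pat s := ⟨s, hs, rfl⟩
    have hval : c (pat s) = u0.1 hex.choose := dif_pos hex
    rw [hval]
    obtain ⟨h2, h3⟩ := hex.choose_spec
    refine hclose s hs _ h2 fun q hq => ?_
    exact (congrFun h3 ⟨q, hq⟩).symm
  have hbot : c (pat bot) = u0.1 bot := by
    have hex : ∃ s' ∈ G', pat s' = pat bot := ⟨bot, Finset.mem_insert_self _ _, rfl⟩
    have hval : c (pat bot) = u0.1 hex.choose := dif_pos hex
    obtain ⟨h2, h3⟩ := hex.choose_spec
    rw [hval]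
    by_contra hne
    have hne' : hex.choose ≠ bot := fun h => hne (by rw [h])
    have hp : (hex.choose, bot) ∈ G' ×ˢ G' :=
      Finset.mem_product.mpr ⟨h2, Finset.mem_insert_self _ _⟩
    have hq : hex.choose.1 (qq hex.choose bot : ℝ) = bot.1 (qq hex.choose bot : ℝ) :=
      congrFun h3 ⟨qq hex.choose bot, Finset.mem_image.mpr ⟨_, hp, rfl⟩⟩
    have hall := hqq _ _ hq
    have : ∃ x : ℝ, hex.choose.1 x ≠ bot.1 x := by
      by_contra hcon
      push Not at hcon
      exact hne' (Subtype.ext (funext hcon))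
    obtain ⟨x, hx⟩ := this
    have hx' : hex.choose.1 x = true := by
      cases h : hex.choose.1 x with
      | true => rfl
      | false => exact absurd h hx
    obtain ⟨q, hq1, hq2⟩ := exists_rat_btwn (lt_add_one x)
    have h4 := mono_true hq1.le hx'
    rw [hall q] at h4
    have h5 : bot.1 (q : ℝ) = false := rfl
    rw [h5] at h4
    exact absurd h4 (by decide)
  refine ⟨⟨fun s => u0.1 s - c (pat s) + u0.1 bot, (u0.2.sub
    ((continuous_of_discreteTopology (f := c)).comp hpat)).add continuous_const⟩, ?_, ?_⟩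
  · apply Subtype.ext
    funext y
    rw [← hu0]
    induction y using OnePoint.rec with
    | infty =>
      rw [T_infty, T_infty]
      simp only
      rw [hbot]
      ring
    | coe x =>
      rw [T_some, T_some]
      simp only
      have hpx : pat (up x.val) = pat (us x.val) := by
        funext q
        have hneq : x.val ≠ (q.1 : ℝ) := fun h => (J.irr x) ⟨q.1, h.symm⟩
        simp [pat, up_apply, us_apply, lt_iff_le_and_ne, hneq]
      rw [hpx, hbot]
      ring
  · intro s hs
    simp only
    have h2 := hc s (Finset.mem_insert_of_mem hs)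
    rw [abs_lt] at h2 hinf ⊢
    constructor <;> linarith [h2.1, h2.2, hinf.1, hinf.2]

lemma isOpenMap_T : IsOpenMap T := by
  rw [isOpenMap_iff_nhds_le]
  intro f U hU
  obtain ⟨G, ε, hε, hG⟩ := Cp_nhds (Filter.mem_map.mp hU)
  obtain ⟨H, hH⟩ := small_lift G hε
  refine Filter.mem_of_superset (Cp_nhds_mem (T f) H (by positivity : 0 < ε / 3)) ?_
  intro g hg
  obtain ⟨u, hu, hu'⟩ := hH ⟨fun y => g.1 y - (T f).1 y, g.2.sub (T f).2⟩ hg
  have h2 := hG ⟨fun s => u.1 s + f.1 s, u.2.add f.2⟩ (by
    intro x hx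
    simpa using hu' x hx)
  have h3 : T ⟨fun s => u.1 s + f.1 s, u.2.add f.2⟩ = g := by
    apply Subtype.ext
    funext y
    have h4 : (T u).1 y = g.1 y - (T f).1 y := by rw [hu]
    induction y using OnePoint.rec with
    | infty =>
      rw [T_infty] at h4 ⊢
      rw [T_infty] at h4
      simp only
      linarith
    | coe x =>
      rw [T_some] at h4 ⊢
      rw [T_some] at h4
      simp only
      linarith
  rw [← h3]
  exact h2

/-! ### The double arrow space is hereditarily separable -/

lemma exists_below (G : Finset ℝ) (x : ℝ) : ∃ a < x, ∀ g ∈ G, g < x → g ≤ a := by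
  classical
  induction G using Finset.induction_on with
  | empty => exact ⟨x - 1, by linarith, by simp⟩
  | insert g G _ ih =>
    obtain ⟨a, ha, h⟩ := ih
    by_cases hg : g < x
    · refine ⟨max a g, max_lt ha hg, fun g' hg' hlt => ?_⟩
      rcases Finset.mem_insert.mp hg' with rfl | h'
      · exact le_max_right _ _
      · exact (h g' h' hlt).trans (le_max_left _ _)
    · refine ⟨a, ha, fun g' hg' hlt => ?_⟩
      rcases Finset.mem_insert.mp hg' with rfl | h'
      · exact absurd hlt hg
      · exact h g' h' hlt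

lemma exists_above (G : Finset ℝ) (x : ℝ) : ∃ a, x < a ∧ ∀ g ∈ G, x < g → a ≤ g := by
  classical
  induction G using Finset.induction_on with
  | empty => exact ⟨x + 1, by linarith, by simp⟩
  | insert g G _ ih =>
    obtain ⟨a, ha, h⟩ := ih
    by_cases hg : x < g
    · refine ⟨min a g, lt_min ha hg, fun g' hg' hlt => ?_⟩
      rcases Finset.mem_insert.mp hg' with rfl | h'
      · exact min_le_right _ _
      · exact (min_le_left _ _).trans (h g' h' hlt)
    · refine ⟨a, ha, fun g' hg' hlt => ?_⟩
      rcases Finset.mem_insert.mp hg' with rfl | h'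
      · exact absurd hlt hg
      · exact h g' h' hlt

/-- The full up-set. -/
def top : DA := ⟨fun _ => true, fun _ _ _ => le_rfl⟩

lemma classify (s : DA) : s = bot ∨ s = top ∨ ∃ x, s = up x ∨ s = us x := by
  by_cases h1 : ∀ y, s.1 y = false
  · left
    exact Subtype.ext (funext h1)
  by_cases h2 : ∀ y, s.1 y = true
  · right; left
    exact Subtype.ext (funext h2)
  right; right
  push Not at h1 h2
  obtain ⟨b, hb⟩ := h1
  obtain ⟨a, ha⟩ := h2
  have hb' : s.1 b = true := by
    cases h : s.1 b with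
    | true => rfl
    | false => exact absurd h hb
  have ha' : s.1 a = false := by
    cases h : s.1 a with
    | false => rfl
    | true => exact absurd h ha
  have hlow : ∀ y, s.1 y = true → a ≤ y := by
    intro y hy
    by_contra hlt
    have := mono_true (not_le.mp hlt).le hy
    rw [ha'] at this
    exact absurd this (by decide)
  have hbdd : BddBelow {y | s.1 y = true} := ⟨a, fun y hy => hlow y hy⟩
  have hgt : ∀ y, sInf {y | s.1 y = true} < y → s.1 y = true := by
    intro y hy
    obtain ⟨z, hz, hzy⟩ := exists_lt_of_csInf_lt ⟨b, hb'⟩ hy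
    exact mono_true hzy.le hz
  have hlt : ∀ y, y < sInf {y | s.1 y = true} → s.1 y = false := by
    intro y hy
    cases h : s.1 y with
    | false => rfl
    | true => exact absurd (csInf_le hbdd h) (not_le.mpr hy)
  refine ⟨sInf {y | s.1 y = true}, ?_⟩
  cases h : s.1 (sInf {y | s.1 y = true}) with
  | true =>
    left
    apply Subtype.ext
    funext y
    rw [up_apply]
    rcases lt_trichotomy (sInf {y | s.1 y = true}) y with hy | hy | hy
    · rw [hgt y hy]
      simp [hy.le]
    · rw [← hy, h]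
      simp
    · rw [hlt y hy]
      simp [not_le.mpr hy]
  | false =>
    right
    apply Subtype.ext
    funext y
    rw [us_apply]
    rcases lt_trichotomy (sInf {y | s.1 y = true}) y with hy | hy | hy
    · rw [hgt y hy]
      simp [hy]
    · rw [← hy, h]
      simp
    · rw [hlt y hy]
      simp [hy.le]

lemma hered_sep (A : Set DA) : ∃ D : Set DA, D ⊆ A ∧ D.Countable ∧ A ⊆ closure D := by
  classical
  let V : ℚ × ℚ → Set DA := fun p => {t | t ∈ A ∧ t.1 (p.1 : ℝ) = true ∧ t.1 (p.2 : ℝ) = false}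
  have h0 : ∀ p : ℚ × ℚ, ∃ D : Set DA, D ⊆ V p ∧ D.Countable ∧ ((V p).Nonempty → D.Nonempty) := by
    intro p
    by_cases h : (V p).Nonempty
    · obtain ⟨t, ht⟩ := h
      exact ⟨{t}, by simpa using ht, countable_singleton t, fun _ => ⟨t, rfl⟩⟩
    · exact ⟨∅, empty_subset _, countable_empty, fun h' => absurd h' h⟩
  choose D0 hD01 hD02 hD03 using h0
  let E1 : ℚ → Set DA := fun r => {s | s ∈ A ∧ ∃ x : ℝ, s = up x ∧ (r : ℝ) < x ∧
    ∀ t ∈ A, t.1 x = true → t.1 (r : ℝ) = false → t = s}
  let E2 : ℚ → Set DA := fun r => {s | s ∈ A ∧ ∃ x : ℝ, s = us x ∧ x < (r : ℝ) ∧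
    ∀ t ∈ A, t.1 (r : ℝ) = true → t.1 x = false → t = s}
  have hE1 : ∀ r, (E1 r).Subsingleton := by
    rintro r s ⟨hsA, x, rfl, hrx, hs⟩ s' ⟨hsA', x', rfl, hrx', hs'⟩
    rcases le_total x x' with h | h
    · exact hs' _ hsA (by simp [up_apply, h]) (by simp [up_apply, hrx])
    · exact (hs _ hsA' (by simp [up_apply, h]) (by simp [up_apply, hrx'])).symm
  have hE2 : ∀ r, (E2 r).Subsingleton := by
    rintro r s ⟨hsA, x, rfl, hrx, hs⟩ s' ⟨hsA', x', rfl, hrx', hs'⟩
    rcases le_total x x' with h | h
    · exact (hs _ hsA' (by simp [us_apply, hrx']) (by simp [us_apply, h])).symm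
    · exact hs' _ hsA (by simp [us_apply, hrx]) (by simp [us_apply, h])
  refine ⟨(⋃ p, D0 p) ∪ (⋃ r, E1 r) ∪ (⋃ r, E2 r) ∪ (A ∩ {bot, top}), ?_, ?_, ?_⟩
  · refine union_subset (union_subset (union_subset ?_ ?_) ?_) inter_subset_left
    · exact iUnion_subset fun p t ht => (hD01 p ht).1
    · exact iUnion_subset fun r t ht => ht.1
    · exact iUnion_subset fun r t ht => ht.1
  · refine (((countable_iUnion hD02).union (countable_iUnion fun r => (hE1 r).countable)).union
      (countable_iUnion fun r => (hE2 r).countable)).union ?_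
    exact (Set.toFinite {bot, top}).countable.mono inter_subset_right
  · intro s hs
    rcases classify s with rfl | rfl | ⟨x, rfl | rfl⟩
    · exact subset_closure (Or.inr ⟨hs, by simp⟩)
    · exact subset_closure (Or.inr ⟨hs, by simp⟩)
    · by_cases hE : ∃ r, up x ∈ E1 r
      · obtain ⟨r, hr⟩ := hE
        exact subset_closure (Or.inl (Or.inl (Or.inr (mem_iUnion.mpr ⟨r, hr⟩))))
      rw [mem_closure_iff]
      intro U hU hxU
      obtain ⟨G, hG⟩ := exists_finset_of_isOpen hU hxU
      obtain ⟨a, hax, ha⟩ := exists_below G x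
      obtain ⟨r, hr1, hr2⟩ := exists_rat_btwn hax
      have hnr : up x ∉ E1 r := fun h => hE ⟨r, h⟩
      have : ∃ t ∈ A, t.1 x = true ∧ t.1 (r : ℝ) = false ∧ t ≠ up x := by
        by_contra hcon
        push Not at hcon
        exact hnr ⟨hs, x, rfl, hr2, hcon⟩
      obtain ⟨t, htA, htx, htr, htne⟩ := this
      have : ∃ y, y < x ∧ t.1 y = true := by
        by_contra hcon
        push Not at hcon
        refine htne (Subtype.ext (funext fun y => ?_))
        rw [up_apply]
        by_cases hy : x ≤ y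
        · rw [mono_true hy htx]
          simp [hy]
        · have h5 : t.1 y = false := Bool.eq_false_iff.mpr (hcon y (not_le.mp hy))
          rw [h5]
          simp [hy]
      obtain ⟨y, hyx, hty⟩ := this
      obtain ⟨q, hq1, hq2⟩ := exists_rat_btwn hyx
      have htV : t ∈ V (q, r) := ⟨htA, mono_true hq1.le hty, htr⟩
      obtain ⟨t', ht'⟩ := hD03 (q, r) ⟨t, htV⟩
      obtain ⟨ht'A, ht'q, ht'r⟩ := hD01 _ ht'
      refine ⟨t', hG t' fun g hg => ?_, Or.inl (Or.inl (Or.inl (mem_iUnion.mpr ⟨_, ht'⟩)))⟩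
      rw [up_apply]
      by_cases hgx : x ≤ g
      · rw [mono_true (hq2.le.trans hgx) ht'q]
        simp [hgx]
      · rw [mono_false ((ha g hg (not_le.mp hgx)).trans hr1.le) ht'r]
        simp [hgx]
    · by_cases hE : ∃ r, us x ∈ E2 r
      · obtain ⟨r, hr⟩ := hE
        exact subset_closure (Or.inl (Or.inr (mem_iUnion.mpr ⟨r, hr⟩)))
      rw [mem_closure_iff]
      intro U hU hxU
      obtain ⟨G, hG⟩ := exists_finset_of_isOpen hU hxU
      obtain ⟨a, hax, ha⟩ := exists_above G x
      obtain ⟨r, hr1, hr2⟩ := exists_rat_btwn hax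
      have hnr : us x ∉ E2 r := fun h => hE ⟨r, h⟩
      have : ∃ t ∈ A, t.1 (r : ℝ) = true ∧ t.1 x = false ∧ t ≠ us x := by
        by_contra hcon
        push Not at hcon
        exact hnr ⟨hs, x, rfl, hr1, hcon⟩
      obtain ⟨t, htA, htr, htx, htne⟩ := this
      have : ∃ y, x < y ∧ t.1 y = false := by
        by_contra hcon
        push Not at hcon
        refine htne (Subtype.ext (funext fun y => ?_))
        rw [us_apply]
        by_cases hy : x < y
        · have h5 : t.1 y = true := by
            cases h6 : t.1 y with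
            | true => rfl
            | false => exact absurd h6 (hcon y hy)
          rw [h5]
          simp [hy]
        · rw [mono_false (not_lt.mp hy) htx]
          simp [hy]
      obtain ⟨y, hyx, hty⟩ := this
      obtain ⟨q, hq1, hq2⟩ := exists_rat_btwn hyx
      have htV : t ∈ V (r, q) := ⟨htA, htr, mono_false hq2.le hty⟩
      obtain ⟨t', ht'⟩ := hD03 (r, q) ⟨t, htV⟩
      obtain ⟨ht'A, ht'r, ht'q⟩ := hD01 _ ht'
      refine ⟨t', hG t' fun g hg => ?_, Or.inl (Or.inl (Or.inl (mem_iUnion.mpr ⟨_, ht'⟩)))⟩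
      rw [us_apply]
      by_cases hgx : x < g
      · rw [mono_true (hr2.le.trans (ha g hg hgx)) ht'r]
        simp [hgx]
      · rw [mono_false ((not_lt.mp hgx).trans hq1.le) ht'q]
        simp [hgx]

lemma hd_DA : hd DA = ℵ₀ := by
  refine le_antisymm (max_le (ciSup_le' fun A => ?_) le_rfl) (le_max_right _ _)
  obtain ⟨D, hDA, hDc, hD⟩ := hered_sep A
  have h1 : Dense (Subtype.val ⁻¹' D : Set A) := by
    rw [Subtype.dense_iff, Subtype.image_preimage_coe, inter_eq_self_of_subset_right hDA]
    exact hD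
  have h2 : (Subtype.val ⁻¹' D : Set A).Countable :=
    hDc.preimage Subtype.val_injective
  have h3 : dens A ≤ Cardinal.mk (Subtype.val ⁻¹' D : Set A) := csInf_le' ⟨_, h1, rfl⟩
  exact h3.trans (Cardinal.mk_le_aleph0_iff.mpr h2.to_subtype)

lemma aleph0_lt_hd : ℵ₀ < hd (OnePoint J) := by
  let A : Set (OnePoint J) := range (fun x : J => (x : OnePoint J))
  have hdisc : DiscreteTopology A :=
    (OnePoint.isOpenEmbedding_coe.isEmbedding.toHomeomorph.symm.isEmbedding).discreteTopology
  have hne : {κ : Cardinal.{0} | ∃ D : Set A, Dense D ∧ Cardinal.mk D = κ}.Nonempty :=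
    ⟨_, Set.univ, dense_univ, rfl⟩
  obtain ⟨D, hD, hDκ⟩ := csInf_mem hne
  have hDu : D = Set.univ := dense_discrete.mp hD
  have h1 : dens A = Cardinal.mk J := by
    have : dens A = Cardinal.mk D := hDκ.symm
    rw [this, hDu, Cardinal.mk_univ]
    exact Cardinal.mk_range_eq _ OnePoint.coe_injective
  have h2 : ℵ₀ < Cardinal.mk J := by
    rw [← not_le, Cardinal.mk_le_aleph0_iff]
    intro hc
    have h3 : ({x : ℝ | Irrational x}).Countable := hc
    have h4 : (range (fun q : ℚ => (q : ℝ))).Countable := countable_range _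
    have h5 : (Set.univ : Set ℝ) ⊆ {x : ℝ | Irrational x} ∪ range (fun q : ℚ => (q : ℝ)) := by
      intro x _
      by_cases hx : Irrational x
      · exact Or.inl hx
      · right
        by_contra h
        exact hx h
    exact Cardinal.not_countable_real ((h3.union h4).mono h5)
  calc ℵ₀ < dens A := by rw [h1]; exact h2
    _ ≤ ⨆ A : Set (OnePoint J), dens A := le_ciSup Cardinal.bddAbove_of_small A
    _ ≤ hd (OnePoint J) := le_max_left _ _

/-- There are compact Hausdorff (in particular Tychonoff) spaces `X`, `Y` and an open continuous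
surjection `C_p(X) → C_p(Y)` such that `X` is hereditarily separable while `hd Y` is
uncountable. -/
theorem result : ∃ (X Y : Type) (_ : TopologicalSpace X) (_ : TopologicalSpace Y),
    CompactSpace X ∧ T35Space X ∧ CompactSpace Y ∧ T35Space Y ∧
    ∃ φ : Cp X → Cp Y, Continuous φ ∧ IsOpenMap φ ∧ Function.Surjective φ ∧ hd X < hd Y := by
  refine ⟨DA, OnePoint J, inferInstance, inferInstance, inferInstance, inferInstance,
    inferInstance, inferInstance, T, continuous_T, isOpenMap_T, surjective_T, ?_⟩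
  rw [hd_DA]
  exact aleph0_lt_hd

end Pool.Agent.Results.MP_4cc686_gt.OpenImage
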